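import Mathlib

/-!
# The four corner Cantor measure in the plane
-/

set_option autoImplicit false
set_option linter.all false

open MeasureTheory Set Filter Topology Metric
open scoped ENNReal

namespace Pool.Agent.H76BD

/-- the sum of the series with digits `b` in base four -/
noncomputable def gs (b : ℕ → ℝ) : ℝ := ∑' n, b n * (3 / 4 ^ (n + 1))

theorem hasSum_w : HasSum (fun n : ℕ => (3 : ℝ) / 4 ^ (n + 1)) 1 := by
  have h := (hasSum_geometric_of_lt_one (r := (1 / 4 : ℝ)) (by norm_num) (by norm_num)).mul_left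
    (3 / 4)
  have e : (3 / 4 : ℝ) * (1 - 1 / 4)⁻¹ = 1 := by norm_num
  rw [e] at h
  refine h.congr_fun ?_ |> fun h' => h'
  intro n
  rw [pow_succ, one_div, inv_pow]
  field_simp

theorem summable_gs {b : ℕ → ℝ} (h0 : ∀ n, 0 ≤ b n) (h1 : ∀ n, b n ≤ 1) :
    Summable fun n => b n * (3 / 4 ^ (n + 1)) := by
  refine Summable.of_nonneg_of_le (fun n => mul_nonneg (h0 n) (by positivity)) (fun n => ?_)
    hasSum_w.summable
  calc b n * (3 / 4 ^ (n + 1)) ≤ 1 * (3 / 4 ^ (n + 1)) := by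
        apply mul_le_mul_of_nonneg_right (h1 n); positivity
    _ = _ := one_mul _

theorem gs_nonneg {b : ℕ → ℝ} (h0 : ∀ n, 0 ≤ b n) : 0 ≤ gs b :=
  tsum_nonneg fun n => mul_nonneg (h0 n) (by positivity)

theorem gs_le_one {b : ℕ → ℝ} (h0 : ∀ n, 0 ≤ b n) (h1 : ∀ n, b n ≤ 1) : gs b ≤ 1 := by
  rw [← hasSum_w.tsum_eq]
  refine (summable_gs h0 h1).tsum_le_tsum (fun n => ?_) hasSum_w.summable
  calc b n * (3 / 4 ^ (n + 1)) ≤ 1 * (3 / 4 ^ (n + 1)) := by
        apply mul_le_mul_of_nonneg_right (h1 n); positivity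
    _ = _ := one_mul _

theorem gs_split {b : ℕ → ℝ} (h0 : ∀ n, 0 ≤ b n) (h1 : ∀ n, b n ≤ 1) (k : ℕ) :
    gs b = ∑ n ∈ Finset.range k, b n * (3 / 4 ^ (n + 1)) + (1 / 4) ^ k * gs (fun n => b (n + k)) := by
  unfold gs
  rw [← (summable_gs h0 h1).sum_add_tsum_nat_add k, ← tsum_mul_left]
  congr 1
  refine tsum_congr fun n => ?_
  rw [show n + k + 1 = k + (n + 1) by ring, pow_add, one_div, inv_pow]
  field_simp

/-- the digits -/
noncomputable def dre : Fin 4 → ℝ := ![0, 1, 0, 1]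

noncomputable def dim : Fin 4 → ℝ := ![0, 0, 1, 1]

theorem dre_cases (j : Fin 4) : dre j = 0 ∨ dre j = 1 := by
  fin_cases j <;> simp [dre]

theorem dim_cases (j : Fin 4) : dim j = 0 ∨ dim j = 1 := by
  fin_cases j <;> simp [dim]

theorem digits_inj {i j : Fin 4} (h1 : dre i = dre j) (h2 : dim i = dim j) : i = j := by
  fin_cases i <;> fin_cases j <;> simp [dre, dim] at h1 h2 ⊢

/-- two expansions which differ in a digit are far apart -/
theorem gs_sep {b c : ℕ → ℝ} (hb : ∀ n, b n = 0 ∨ b n = 1) (hc : ∀ n, c n = 0 ∨ c n = 1) {k : ℕ}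
    (hk : ∀ n < k, b n = c n) (hne : b k ≠ c k) : 2 * (1 / 4) ^ (k + 1) ≤ |gs b - gs c| := by
  have B0 : ∀ n, 0 ≤ b n := fun n => by rcases hb n with h | h <;> rw [h] <;> norm_num
  have B1 : ∀ n, b n ≤ 1 := fun n => by rcases hb n with h | h <;> rw [h] <;> norm_num
  have C0 : ∀ n, 0 ≤ c n := fun n => by rcases hc n with h | h <;> rw [h] <;> norm_num
  have C1 : ∀ n, c n ≤ 1 := fun n => by rcases hc n with h | h <;> rw [h] <;> norm_num
  rw [gs_split B0 B1 (k + 1), gs_split C0 C1 (k + 1), Finset.sum_range_succ, Finset.sum_range_succ,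
    Finset.sum_congr rfl (fun n hn => by rw [hk n (Finset.mem_range.1 hn)])]
  set s := ∑ n ∈ Finset.range k, c n * (3 / 4 ^ (n + 1) : ℝ)
  have x0 := gs_nonneg (b := fun n => b (n + (k + 1))) fun n => B0 _
  have x1 := gs_le_one (b := fun n => b (n + (k + 1))) (fun n => B0 _) fun n => B1 _
  have y0 := gs_nonneg (b := fun n => c (n + (k + 1))) fun n => C0 _
  have y1 := gs_le_one (b := fun n => c (n + (k + 1))) (fun n => C0 _) fun n => C1 _
  set x := gs (fun n => b (n + (k + 1)))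
  set y := gs (fun n => c (n + (k + 1)))
  have hw : (3 / 4 ^ (k + 1) : ℝ) = 3 * (1 / 4) ^ (k + 1) := by
    rw [one_div, inv_pow]; rfl
  rw [hw]
  have hp : (0 : ℝ) < (1 / 4) ^ (k + 1) := by positivity
  set p := (1 / 4 : ℝ) ^ (k + 1)
  have h3 : p * x ≤ p := by nlinarith
  have h4 : p * y ≤ p := by nlinarith
  have h5 : 0 ≤ p * x := by positivity
  have h6 : 0 ≤ p * y := by positivity
  rcases hb k with h | h <;> rcases hc k with h' | h' <;> rw [h, h'] at hne ⊢
  · exact absurd rfl hne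
  · rw [abs_sub_comm]
    refine le_trans ?_ (le_abs_self _)
    linarith
  · refine le_trans ?_ (le_abs_self _)
    linarith
  · exact absurd rfl hne

/-- two expansions with the same first digits are close -/
theorem gs_close {b : ℕ → ℝ} (hb : ∀ n, b n = 0 ∨ b n = 1) (k : ℕ) :
    ∑ n ∈ Finset.range k, b n * (3 / 4 ^ (n + 1)) ≤ gs b ∧
      gs b ≤ ∑ n ∈ Finset.range k, b n * (3 / 4 ^ (n + 1)) + (1 / 4) ^ k := by
  have B0 : ∀ n, 0 ≤ b n := fun n => by rcases hb n with h | h <;> rw [h] <;> norm_num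
  have B1 : ∀ n, b n ≤ 1 := fun n => by rcases hb n with h | h <;> rw [h] <;> norm_num
  rw [gs_split B0 B1 k]
  have x0 := gs_nonneg (b := fun n => b (n + k)) fun n => B0 _
  have x1 := gs_le_one (b := fun n => b (n + k)) (fun n => B0 _) fun n => B1 _
  have hp : (0 : ℝ) < (1 / 4) ^ k := by positivity
  constructor
  · have := mul_nonneg hp.le x0
    linarith
  · nlinarith

/-- the coding map of the Cantor set -/
noncomputable def cod (ω : ℕ → Fin 4) : ℂ :=
  ⟨gs fun n => dre (ω n), gs fun n => dim (ω n)⟩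

theorem continuous_gs {d : Fin 4 → ℝ} (h0 : ∀ n, 0 ≤ d n) (h1 : ∀ n, d n ≤ 1) :
    Continuous fun ω : ℕ → Fin 4 => gs fun n => d (ω n) := by
  unfold gs
  refine continuous_tsum (u := fun n : ℕ => (3 : ℝ) / 4 ^ (n + 1)) (fun n => ?_)
    hasSum_w.summable (fun n ω => ?_)
  · exact ((continuous_of_discreteTopology (f := d)).comp (continuous_apply n)).mul
      continuous_const
  · rw [Real.norm_of_nonneg (mul_nonneg (h0 _) (by positivity))]
    calc d (ω n) * (3 / 4 ^ (n + 1)) ≤ 1 * (3 / 4 ^ (n + 1)) := by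
          apply mul_le_mul_of_nonneg_right (h1 _); positivity
      _ = _ := one_mul _

theorem continuous_cod : Continuous cod := by
  have h1 : Continuous fun ω : ℕ → Fin 4 => gs fun n => dre (ω n) :=
    continuous_gs (fun n => by rcases dre_cases n with h | h <;> rw [h] <;> norm_num)
      (fun n => by rcases dre_cases n with h | h <;> rw [h] <;> norm_num)
  have h2 : Continuous fun ω : ℕ → Fin 4 => gs fun n => dim (ω n) :=
    continuous_gs (fun n => by rcases dim_cases n with h | h <;> rw [h] <;> norm_num)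
      (fun n => by rcases dim_cases n with h | h <;> rw [h] <;> norm_num)
  exact Complex.equivRealProdCLM.symm.continuous.comp (h1.prodMk h2)

/-- the uniform measure on the four digits -/
noncomputable def unif : Measure (Fin 4) := (4 : ℝ≥0∞)⁻¹ • Measure.count

instance : IsProbabilityMeasure unif := ⟨by
  simp [unif, Measure.count_univ]
  exact ENNReal.inv_mul_cancel (by norm_num) (by norm_num)⟩

theorem unif_singleton (j : Fin 4) : unif {j} = 4⁻¹ := by
  simp [unif]

/-- the Bernoulli measure on the sequences of digits -/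
noncomputable def bern : Measure (ℕ → Fin 4) := Measure.infinitePi fun _ : ℕ => unif

instance : IsProbabilityMeasure bern := by unfold bern; infer_instance

theorem bern_cyl (w : ℕ → Fin 4) (k : ℕ) :
    bern {ω | ∀ n < k, ω n = w n} = (4⁻¹ : ℝ≥0∞) ^ k := by
  have h : {ω : ℕ → Fin 4 | ∀ n < k, ω n = w n} =
      Set.pi (Finset.range k : Set ℕ) fun n => {w n} := by
    ext ω; simp
  rw [h, bern, Measure.infinitePi_pi _ (fun i _ => MeasurableSet.singleton _)]
  simp [unif_singleton]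

/-- the Cantor measure -/
noncomputable def mu : Measure ℂ := bern.map cod

instance : IsProbabilityMeasure mu :=
  Measure.isProbabilityMeasure_map continuous_cod.measurable.aemeasurable

theorem isCompact_K : IsCompact (range cod) := isCompact_range continuous_cod

theorem mu_K : mu (range cod)ᶜ = 0 := by
  rw [mu, Measure.map_apply continuous_cod.measurable isCompact_K.isClosed.measurableSet.compl]
  have : cod ⁻¹' (range cod)ᶜ = ∅ := by
    ext ω; simp
  rw [this, measure_empty]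

/-- sets of small diameter have small measure -/
theorem mu_le_of_dist {s : Set ℂ} (k : ℕ)
    (h : ∀ x ∈ s, ∀ y ∈ s, dist x y < 2 * (1 / 4) ^ k) (hs : MeasurableSet s) :
    mu s ≤ (4⁻¹ : ℝ≥0∞) ^ k := by
  rw [mu, Measure.map_apply continuous_cod.measurable hs]
  rcases (cod ⁻¹' s).eq_empty_or_nonempty with h0 | ⟨w, hw⟩
  · rw [h0, measure_empty]; exact bot_le
  rw [← bern_cyl w k]
  refine measure_mono fun ω hω => ?_
  by_contra hcon
  simp only [mem_ofPred_eq, not_forall] at hcon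
  have hex : ∃ n, n < k ∧ ω n ≠ w n := by
    obtain ⟨n, hn, hne⟩ := hcon
    exact ⟨n, hn, hne⟩
  classical
  obtain ⟨hmk, hmne⟩ := Nat.find_spec hex
  have hmin : ∀ n < Nat.find hex, ω n = w n := by
    intro n hn
    by_contra hne
    exact Nat.find_min hex hn ⟨by omega, hne⟩
  set m := Nat.find hex
  have hd := h _ hω _ hw
  have hpow : (1 / 4 : ℝ) ^ k ≤ (1 / 4) ^ (m + 1) :=
    pow_le_pow_of_le_one (by norm_num) (by norm_num) (by omega)
  have hsep : 2 * (1 / 4 : ℝ) ^ (m + 1) ≤ dist (cod ω) (cod w) := by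
    rw [dist_eq_norm]
    by_cases hre : dre (ω m) = dre (w m)
    · have him : dim (ω m) ≠ dim (w m) := fun h => hmne (digits_inj hre h)
      refine le_trans ?_ (Complex.abs_im_le_norm _)
      exact gs_sep (fun n => dim_cases _) (fun n => dim_cases _)
        (fun n hn => by rw [hmin n hn]) him
    · refine le_trans ?_ (Complex.abs_re_le_norm _)
      exact gs_sep (fun n => dre_cases _) (fun n => dre_cases _)
        (fun n hn => by rw [hmin n hn]) hre
  linarith

/-- the left lower corner of the square of the generation `k` -/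
noncomputable def cor (ω : ℕ → Fin 4) (k : ℕ) : ℂ :=
  ⟨∑ n ∈ Finset.range k, dre (ω n) * (3 / 4 ^ (n + 1)), ∑ n ∈ Finset.range k, dim (ω n) * (3 / 4 ^ (n + 1))⟩

theorem cod_cor (ω : ℕ → Fin 4) (k : ℕ) :
    (cor ω k).re ≤ (cod ω).re ∧ (cod ω).re ≤ (cor ω k).re + (1 / 4) ^ k ∧
      (cor ω k).im ≤ (cod ω).im ∧ (cod ω).im ≤ (cor ω k).im + (1 / 4) ^ k :=
  ⟨(gs_close (fun n => dre_cases _) k).1, (gs_close (fun n => dre_cases _) k).2,
    (gs_close (fun n => dim_cases _) k).1, (gs_close (fun n => dim_cases _) k).2⟩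

/-- the centres of the four subsquares -/
noncomputable def cen (ω : ℕ → Fin 4) (k : ℕ) (j : Fin 4) : ℂ :=
  ⟨(cor ω k).re + (1 / 4) ^ k * (3 / 4 * dre j + 1 / 8), (cor ω k).im + (1 / 4) ^ k * (3 / 4 * dim j + 1 / 8)⟩

theorem norm_le_of_abs {z : ℂ} {a C : ℝ} (h1 : |z.re| ≤ a) (h2 : |z.im| ≤ a) (hC : 2 * a ^ 2 ≤ C ^ 2)
    (h0 : 0 ≤ C) : ‖z‖ ≤ C := by
  apply le_of_sq_le_sq _ h0
  rw [Complex.sq_norm, Complex.normSq_apply]
  have h3 : z.re ^ 2 ≤ a ^ 2 := sq_le_sq' (by linarith [(abs_le.1 h1).1]) (abs_le.1 h1).2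
  have h4 : z.im ^ 2 ≤ a ^ 2 := sq_le_sq' (by linarith [(abs_le.1 h2).1]) (abs_le.1 h2).2
  nlinarith

theorem dist_cen (ω : ℕ → Fin 4) (k : ℕ) (j : Fin 4) :
    ‖cen ω k j - cod ω‖ ≤ 3 / 2 * (1 / 4) ^ k := by
  obtain ⟨h1, h2, h3, h4⟩ := cod_cor ω k
  have hp : (0 : ℝ) < (1 / 4) ^ k := by positivity
  set p := (1 / 4 : ℝ) ^ k
  refine norm_le_of_abs (a := p) ?_ ?_ (by nlinarith) (by positivity)
  · have e : (cen ω k j - cod ω).re = (cor ω k).re + p * (3 / 4 * dre j + 1 / 8) - (cod ω).re := rfl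
    rw [e, abs_le]
    rcases dre_cases j with h | h <;> rw [h] <;> constructor <;> linarith
  · have e : (cen ω k j - cod ω).im = (cor ω k).im + p * (3 / 4 * dim j + 1 / 8) - (cod ω).im := rfl
    rw [e, abs_le]
    rcases dim_cases j with h | h <;> rw [h] <;> constructor <;> linarith

theorem mu_cen (ω : ℕ → Fin 4) (k : ℕ) (j : Fin 4) :
    (4⁻¹ : ℝ≥0∞) ^ (k + 1) ≤ mu (closedBall (cen ω k j) (1 / 5 * (1 / 4) ^ k)) := by
  classical
  rw [mu, Measure.map_apply continuous_cod.measurable measurableSet_closedBall,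
    ← bern_cyl (Function.update ω k j) (k + 1)]
  refine measure_mono fun η hη => ?_
  simp only [mem_ofPred_eq] at hη
  have hlt : ∀ n < k, η n = ω n := fun n hn => by
    rw [hη n (by omega), Function.update_of_ne (by omega)]
  have hk : η k = j := by rw [hη k (by omega), Function.update_self]
  obtain ⟨h1, h2, h3, h4⟩ := cod_cor η (k + 1)
  have e1 : (cor η (k + 1)).re = (cor ω k).re + dre j * (3 / 4 ^ (k + 1)) := by
    simp only [cor]
    rw [Finset.sum_range_succ, hk]
    congr 1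
    exact Finset.sum_congr rfl fun n hn => by rw [hlt n (Finset.mem_range.1 hn)]
  have e2 : (cor η (k + 1)).im = (cor ω k).im + dim j * (3 / 4 ^ (k + 1)) := by
    simp only [cor]
    rw [Finset.sum_range_succ, hk]
    congr 1
    exact Finset.sum_congr rfl fun n hn => by rw [hlt n (Finset.mem_range.1 hn)]
  rw [e1] at h1 h2
  rw [e2] at h3 h4
  have hw : (3 / 4 ^ (k + 1) : ℝ) = 3 / 4 * (1 / 4) ^ k := by
    rw [one_div, inv_pow, pow_succ]; field_simp
  have hw2 : (1 / 4 : ℝ) ^ (k + 1) = 1 / 4 * (1 / 4) ^ k := by rw [pow_succ]; ring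
  rw [hw] at h1 h2 h3 h4
  rw [hw2] at h2 h4
  have hp : (0 : ℝ) < (1 / 4) ^ k := by positivity
  rw [mem_preimage, mem_closedBall, dist_eq_norm]
  set p := (1 / 4 : ℝ) ^ k
  refine norm_le_of_abs (a := 1 / 8 * p) ?_ ?_ (by nlinarith) (by positivity)
  · have e : (cod η - cen ω k j).re = (cod η).re - ((cor ω k).re + p * (3 / 4 * dre j + 1 / 8)) := rfl
    rw [e, abs_le]
    constructor <;> linarith
  · have e : (cod η - cen ω k j).im = (cod η).im - ((cor ω k).im + p * (3 / 4 * dim j + 1 / 8)) := rfl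
    rw [e, abs_le]
    constructor <;> linarith

/-- no line is close to all the four centres -/
theorem exists_far (ω : ℕ → Fin 4) (k : ℕ) (x : ℂ) (a b : ℝ) (hab : a ^ 2 + b ^ 2 = 1) :
    ∃ j, 3 / 8 * (1 / 4) ^ k ≤ |(cen ω k j - x).re * a + (cen ω k j - x).im * b| := by
  by_contra hcon
  push Not at hcon
  have hp : (0 : ℝ) < (1 / 4) ^ k := by positivity
  have h0 := hcon 0
  have h1 := hcon 1
  have h2 := hcon 2
  have h3 := hcon 3
  have e : ∀ j, (cen ω k j - x).re * a + (cen ω k j - x).im * b =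
      ((cor ω k).re + (1 / 4) ^ k * (3 / 4 * dre j + 1 / 8) - x.re) * a +
      ((cor ω k).im + (1 / 4) ^ k * (3 / 4 * dim j + 1 / 8) - x.im) * b := fun j => rfl
  rw [e] at h0 h1 h2 h3
  have d0 : dre 0 = 0 := rfl
  have d1 : dre 1 = 1 := rfl
  have d2 : dre 2 = 0 := rfl
  have d3 : dre 3 = 1 := rfl
  have i0 : dim 0 = 0 := rfl
  have i1 : dim 1 = 0 := rfl
  have i2 : dim 2 = 1 := rfl
  have i3 : dim 3 = 1 := rfl
  rw [d0, i0] at h0
  rw [d1, i1] at h1
  rw [d2, i2] at h2
  rw [d3, i3] at h3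
  set p := (1 / 4 : ℝ) ^ k
  obtain ⟨h0a, h0b⟩ := abs_lt.1 h0
  obtain ⟨h1a, h1b⟩ := abs_lt.1 h1
  obtain ⟨h2a, h2b⟩ := abs_lt.1 h2
  obtain ⟨h3a, h3b⟩ := abs_lt.1 h3
  -- sums
  have s1 : 3 / 4 * p * (a + b) < 3 / 4 * p * 1 := by linarith
  have s2 : 3 / 4 * p * (-1) < 3 / 4 * p * (a + b) := by linarith
  have s3 : 3 / 4 * p * (a - b) < 3 / 4 * p * 1 := by linarith
  have s4 : 3 / 4 * p * (-1) < 3 / 4 * p * (a - b) := by linarith
  have hq : 0 ≤ 3 / 4 * p := by positivity
  have t1 : a + b < 1 := lt_of_mul_lt_mul_left s1 hq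
  have t2 : -1 < a + b := lt_of_mul_lt_mul_left s2 hq
  have t3 : a - b < 1 := lt_of_mul_lt_mul_left s3 hq
  have t4 : -1 < a - b := lt_of_mul_lt_mul_left s4 hq
  have u1 : (a + b) ^ 2 < 1 := by
    rw [sq_lt_one_iff_abs_lt_one, abs_lt]; exact ⟨t2, t1⟩
  have u2 : (a - b) ^ 2 < 1 := by
    rw [sq_lt_one_iff_abs_lt_one, abs_lt]; exact ⟨t4, t3⟩
  have u3 : (a + b) ^ 2 + (a - b) ^ 2 = 2 := by linear_combination 2 * hab
  linarith

end Pool.Agent.H76BD
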