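import Mathlib

/-!
# Functions of bounded deviatoric deformation: definitions
-/

set_option autoImplicit false

open MeasureTheory Set Filter Topology Metric

namespace Pool.Agent.H76BD

/-- The Euclidean space `ℝⁿ`. -/
abbrev E (n : ℕ) : Type := EuclideanSpace ℝ (Fin n)

/-- The partial derivative `∂ᵢ φ` at `x`. -/
noncomputable def pd {n : ℕ} (φ : E n → ℝ) (i : Fin n) (x : E n) : ℝ :=
  fderiv ℝ φ x (EuclideanSpace.single i 1)

/-- The deviatoric part `𝓔_d u` of the distributional symmetric gradient of `u` on the open set `Ω`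
is the matrix valued measure `σ lam`, where `lam` is a finite measure on `Ω` and the matrices `σ x`
have Frobenius norm one for `lam`-almost all `x`. By the polar decomposition, `𝓔_d u` is a finite
matrix valued Radon measure on `Ω` if and only if such `σ` and `lam` exist, and then `lam` is the total
variation measure `|𝓔_d u|`. -/
structure IsDevGradient {n : ℕ} (Ω : Set (E n)) (u : E n → E n)
    (σ : E n → Matrix (Fin n) (Fin n) ℝ) (lam : Measure (E n)) : Prop where
  finite : IsFiniteMeasure lam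
  conc : lam Ωᶜ = 0
  meas : ∀ i j, Measurable fun x => σ x i j
  unit : ∀ᵐ x ∂lam, ∑ i, ∑ j, σ x i j ^ 2 = 1
  eq : ∀ φ : E n → ℝ, ContDiff ℝ (⊤ : ℕ∞) φ → HasCompactSupport φ → tsupport φ ⊆ Ω →
    ∀ i j : Fin n,
      ∫ x in Ω, ((u x i * pd φ j x + u x j * pd φ i x) / 2 -
        (if i = j then (∑ k, u x k * pd φ k x) / n else 0)) = -∫ x, φ x * σ x i j ∂lam

/-- The approximate discontinuity set `S_u`: the points `x` of `Ω` at which there is no `z` such that
the mean values of `|u - z|` over the balls `B_r(x)` tend to zero. -/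
def approxDisc {n : ℕ} (Ω : Set (E n)) (u : E n → E n) : Set (E n) :=
  {x | x ∈ Ω ∧ ¬ ∃ z : E n, Tendsto (fun r : ℝ => ⨍ y in ball x r, ‖u y - z‖) (𝓝[>] 0) (𝓝 0)}

/-- The half ball `B_r⁺(x, ν)`. -/
def halfBall {n : ℕ} (x ν : E n) (r : ℝ) : Set (E n) := {y | y ∈ ball x r ∧ 0 < inner ℝ (y - x) ν}

/-- The jump set `J_u`. -/
def jumpSet {n : ℕ} (Ω : Set (E n)) (u : E n → E n) : Set (E n) :=
  {x | x ∈ Ω ∧ ∃ a b ν : E n, a ≠ b ∧ ‖ν‖ = 1 ∧
    Tendsto (fun r : ℝ => ⨍ y in halfBall x ν r, ‖u y - a‖) (𝓝[>] 0) (𝓝 0) ∧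
    Tendsto (fun r : ℝ => ⨍ y in halfBall x (-ν) r, ‖u y - b‖) (𝓝[>] 0) (𝓝 0)}

end Pool.Agent.H76BD
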