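import Pool.Agent.H76BD.Main

/-!
# The deviatoric gradient of the displacement
-/

set_option autoImplicit false
set_option linter.all false

open MeasureTheory Set Filter Topology Metric
open scoped ENNReal

namespace Pool.Agent.H76BD

/-- the direction of the deviatoric gradient -/
noncomputable def sig (_ : E 2) : Matrix (Fin 2) (Fin 2) ℝ := !![(√2)⁻¹, 0; 0, -(√2)⁻¹]

/-- its total variation -/
noncomputable def lam : Measure (E 2) := ENNReal.ofReal (√2) • nu

theorem cantor_ae : ∀ᵐ x ∂nu, x ∈ range fun ω => ee (cod ω) := by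
  have h : ∀ᵐ w ∂mu, w ∈ range cod := by
    rw [ae_iff]
    exact mu_K
  rw [nu, ae_map_iff meas_ee.aemeasurable]
  · filter_upwards [h] with w hw
    obtain ⟨ω, rfl⟩ := hw
    exact ⟨ω, rfl⟩
  · have hc : IsCompact (range fun ω => ee (cod ω)) :=
      isCompact_range (ee.continuous.comp continuous_cod)
    exact hc.isClosed.measurableSet

theorem integral_lam (f : E 2 → ℝ) : ∫ x, f x ∂lam = √2 * ∫ x, f x ∂nu := by
  rw [lam, integral_smul_measure, ENNReal.toReal_ofReal (Real.sqrt_nonneg 2), smul_eq_mul]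

theorem devGradient : IsDevGradient (ball (0 : E 2) 2) uu sig lam where
  finite := by
    rw [lam]
    exact Measure.smul_finite nu ENNReal.ofReal_ne_top
  conc := by
    rw [lam, Measure.smul_apply, smul_eq_mul, mul_eq_zero]
    right
    have h : ∀ᵐ x ∂nu, x ∈ ball (0 : E 2) 2 := by
      filter_upwards [cantor_ae] with x hx
      obtain ⟨ω, rfl⟩ := hx
      exact cod_mem ω
    exact h
  meas := fun i j => measurable_const
  unit := Eventually.of_forall fun x => by
    have h2 : (√2 : ℝ) ^ 2 = 2 := Real.sq_sqrt (by norm_num)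
    simp only [Fin.sum_univ_two, sig]
    simp
    norm_num
  eq := by
    intro φ hφ hc hs i j
    have hφ1 : ContDiff ℝ 1 φ := hφ.of_le (by exact_mod_cast le_top)
    rw [setIntegral_eq_integral_of_forall_compl_eq_zero, integral_lam]
    · obtain ⟨h1, h2⟩ := uu_eq hφ1 hc
      have hs2 : (√2 : ℝ) ≠ 0 := by positivity
      fin_cases i <;> fin_cases j
      · simp only [Fin.zero_eta, Fin.isValue, if_true, Fin.sum_univ_two]
        have e1 : ∀ x, (uu x 0 * pd φ 0 x + uu x 0 * pd φ 0 x) / 2 -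
            (uu x 0 * pd φ 0 x + uu x 1 * pd φ 1 x) / ((2 : ℕ) : ℝ) =
            (uu x 0 * pd φ 0 x - uu x 1 * pd φ 1 x) / 2 := by
          intro x; push_cast; ring
        simp only [e1, h1]
        have e2 : ∀ x, φ x * sig x 0 0 = φ x * (√2)⁻¹ := fun x => rfl
        simp only [e2, integral_mul_const]
        field_simp
      · simp only [Fin.zero_eta, Fin.isValue, Fin.mk_one]
        have e1 : ∀ x, (uu x 0 * pd φ 1 x + uu x 1 * pd φ 0 x) / 2 - (if (0 : Fin 2) = 1 then
            (∑ k, uu x k * pd φ k x) / ((2 : ℕ) : ℝ) else 0) =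
            (uu x 1 * pd φ 0 x + uu x 0 * pd φ 1 x) / 2 := by
          intro x; rw [if_neg (by decide)]; ring
        simp only [e1, h2]
        have e2 : ∀ x, φ x * sig x 0 1 = 0 := fun x => mul_zero _
        simp [e2]
      · simp only [Fin.zero_eta, Fin.isValue, Fin.mk_one]
        have e1 : ∀ x, (uu x 1 * pd φ 0 x + uu x 0 * pd φ 1 x) / 2 - (if (1 : Fin 2) = 0 then
            (∑ k, uu x k * pd φ k x) / ((2 : ℕ) : ℝ) else 0) =
            (uu x 1 * pd φ 0 x + uu x 0 * pd φ 1 x) / 2 := by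
          intro x; rw [if_neg (by decide)]; ring
        simp only [e1, h2]
        have e2 : ∀ x, φ x * sig x 1 0 = 0 := fun x => mul_zero _
        simp [e2]
      · simp only [Fin.isValue, Fin.mk_one, if_true, Fin.sum_univ_two]
        have e1 : ∀ x, (uu x 1 * pd φ 1 x + uu x 1 * pd φ 1 x) / 2 -
            (uu x 0 * pd φ 0 x + uu x 1 * pd φ 1 x) / ((2 : ℕ) : ℝ) =
            -((uu x 0 * pd φ 0 x - uu x 1 * pd φ 1 x) / 2) := by
          intro x; push_cast; ring
        simp only [e1, integral_neg, h1]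
        have e2 : ∀ x, φ x * sig x 1 1 = φ x * -(√2)⁻¹ := fun x => rfl
        simp only [e2, integral_mul_const]
        field_simp
    · intro x hx
      have hx' : x ∉ tsupport φ := fun h => hx (hs h)
      simp [pd_zero_of_notMem hx']

theorem nu_le_diam (s : Set (E 2)) (hs : ediam s ≤ 1) : nu s ≤ 2 * ediam s := by
  set t := closure s with ht
  have hdt : ediam t = ediam s := ediam_closure s
  have htm : MeasurableSet t := isClosed_closure.measurableSet
  refine (measure_mono subset_closure).trans ?_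
  rw [← hdt]
  have hfin : ediam t ≠ ⊤ := by rw [hdt]; exact (lt_of_le_of_lt hs ENNReal.one_lt_top).ne
  have key : ∀ k : ℕ, ediam t < ENNReal.ofReal (2 * (1 / 4) ^ k) → nu t ≤ (4⁻¹ : ℝ≥0∞) ^ k := by
    intro k hk
    rw [nu, Measure.map_apply meas_ee htm]
    refine mu_le_of_dist k (fun x hx y hy => ?_) (meas_ee htm)
    have h1 : edist (ee x) (ee y) ≤ ediam t := edist_le_ediam_of_mem hx hy
    have h2 : edist (ee x) (ee y) < ENNReal.ofReal (2 * (1 / 4) ^ k) := lt_of_le_of_lt h1 hk
    rw [ee.isometry.edist_eq, edist_dist] at h2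
    exact (ENNReal.ofReal_lt_ofReal_iff (by positivity)).1 h2
  set d : ℝ := (ediam t).toReal with hd
  have hd0 : 0 ≤ d := ENNReal.toReal_nonneg
  have hde : ediam t = ENNReal.ofReal d := (ENNReal.ofReal_toReal hfin).symm
  have hd1 : d ≤ 1 := by
    have := ENNReal.toReal_mono ENNReal.one_ne_top (hdt.le.trans hs)
    simpa using this
  rcases hd0.eq_or_lt with h0 | hpos
  · -- no atoms
    have h1 : ∀ k : ℕ, nu t ≤ (4⁻¹ : ℝ≥0∞) ^ k := by
      intro k
      refine key k ?_
      rw [hde, ← h0, ENNReal.ofReal_zero]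
      exact ENNReal.ofReal_pos.2 (by positivity)
    have h2 : Tendsto (fun k : ℕ => (4⁻¹ : ℝ≥0∞) ^ k) atTop (𝓝 0) :=
      ENNReal.tendsto_pow_atTop_nhds_zero_of_lt_one (by
        rw [ENNReal.inv_lt_one]; norm_num)
    have h3 : nu t ≤ 0 := ge_of_tendsto' h2 h1
    exact h3.trans bot_le
  · -- the largest scale
    have hex : ∃ k : ℕ, 2 * (1 / 4 : ℝ) ^ k ≤ d := by
      have h2 : Tendsto (fun k : ℕ => 2 * (1 / 4 : ℝ) ^ k) atTop (𝓝 0) := by
        have h := (tendsto_pow_atTop_nhds_zero_of_lt_one (r := (1 / 4 : ℝ)) (by norm_num)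
          (by norm_num)).const_mul 2
        simpa using h
      exact (h2.eventually_le_const hpos).exists
    classical
    set k := Nat.find hex with hk
    have hk1 : 2 * (1 / 4 : ℝ) ^ k ≤ d := Nat.find_spec hex
    have hk0 : k ≠ 0 := by
      intro h
      rw [h] at hk1
      norm_num at hk1
      linarith
    obtain ⟨m, hm⟩ := Nat.exists_eq_succ_of_ne_zero hk0
    have hm1 : d < 2 * (1 / 4 : ℝ) ^ m := by
      have := Nat.find_min hex (m := m) (by rw [← hk, hm]; exact Nat.lt_succ_self m)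
      exact not_le.1 this
    have h1 : nu t ≤ (4⁻¹ : ℝ≥0∞) ^ m := by
      refine key m ?_
      rw [hde]
      exact (ENNReal.ofReal_lt_ofReal_iff (by positivity)).2 hm1
    refine h1.trans ?_
    have h2 : (4⁻¹ : ℝ≥0∞) ^ m = ENNReal.ofReal ((1 / 4) ^ m) := by
      rw [ENNReal.ofReal_pow (by norm_num), one_div, ENNReal.ofReal_inv_of_pos (by norm_num)]
      norm_num
    rw [h2, hde, show (2 : ℝ≥0∞) = ENNReal.ofReal 2 by norm_num, ← ENNReal.ofReal_mul (by norm_num)]
    refine ENNReal.ofReal_le_ofReal ?_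
    rw [hm, pow_succ] at hk1
    linarith

theorem nu_ac : nu ≪ Measure.hausdorffMeasure 1 := by
  have h : (2⁻¹ : ℝ≥0∞) • nu ≤ Measure.hausdorffMeasure 1 := by
    refine Measure.le_hausdorffMeasure 1 _ 1 one_pos fun s hs => ?_
    rw [ENNReal.rpow_one, Measure.smul_apply, smul_eq_mul]
    calc (2⁻¹ : ℝ≥0∞) * nu s ≤ 2⁻¹ * (2 * ediam s) := by gcongr; exact nu_le_diam s hs
      _ = ediam s := by
        rw [← mul_assoc, ENNReal.inv_mul_cancel (by norm_num) (by norm_num), one_mul]
  intro s hs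
  have h1 := h s
  rw [hs, Measure.smul_apply, smul_eq_mul, nonpos_iff_eq_zero, mul_eq_zero] at h1
  rcases h1 with h1 | h1
  · exact absurd h1 (by norm_num)
  · exact h1

theorem lam_ac : lam ≪ Measure.hausdorffMeasure 1 := by
  intro s hs
  rw [lam, Measure.smul_apply, nu_ac hs, smul_zero]

theorem good_ae : ∀ᵐ x ∂lam, x ∈ approxDisc (ball (0 : E 2) 2) uu \ jumpSet (ball (0 : E 2) 2) uu := by
  have h : ∀ᵐ x ∂nu, x ∈ approxDisc (ball (0 : E 2) 2) uu \ jumpSet (ball (0 : E 2) 2) uu := by
    filter_upwards [cantor_ae] with x hx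
    obtain ⟨ω, rfl⟩ := hx
    exact ⟨mem_approxDisc ω, notMem_jumpSet ω⟩
  rw [lam]
  exact Measure.ae_smul_measure h _

theorem lam_pos : 0 < lam (approxDisc (ball (0 : E 2) 2) uu \ jumpSet (ball (0 : E 2) 2) uu) := by
  have h := good_ae
  rw [ae_iff] at h
  by_contra hcon
  have h0 := le_antisymm (not_lt.1 hcon) bot_le
  have h1 : lam univ = 0 := by
    refine le_antisymm ?_ bot_le
    calc lam univ ≤ lam (approxDisc (ball (0 : E 2) 2) uu \ jumpSet (ball (0 : E 2) 2) uu) +
        lam (approxDisc (ball (0 : E 2) 2) uu \ jumpSet (ball (0 : E 2) 2) uu)ᶜ := by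
          rw [← union_compl_self (approxDisc (ball (0 : E 2) 2) uu \ jumpSet (ball (0 : E 2) 2) uu)]
          exact measure_union_le _ _
      _ = 0 := by
        rw [h0]
        have : lam (approxDisc (ball (0 : E 2) 2) uu \ jumpSet (ball (0 : E 2) 2) uu)ᶜ = 0 := h
        rw [this]
        exact add_zero _
  rw [lam, Measure.smul_apply, measure_univ, smul_eq_mul, mul_one, ENNReal.ofReal_eq_zero] at h1
  have : (0 : ℝ) < √2 := by positivity
  linarith

end Pool.Agent.H76BD
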