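import Pool.Agent.H76BD.Cantor
import Pool.Agent.H761R2.SV.Pomp

/-!
# The Cauchy transform of the Cantor measure
-/

set_option autoImplicit false
set_option linter.all false

open MeasureTheory Set Filter Topology Metric
open scoped ENNReal
open Pool.Agent.H761R2.SV (dbar pompeiu_compact integrableOn_norm_inv)

namespace Pool.Agent.H76BD

theorem norm_cod_lt (ω : ℕ → Fin 4) : ‖cod ω‖ < 2 := by
  have h := cod_cor ω 0
  simp only [cor, Finset.range_zero, Finset.sum_empty, pow_zero, zero_add] at h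
  obtain ⟨h1, h2, h3, h4⟩ := h
  refine lt_of_le_of_lt (norm_le_of_abs (a := 1) (C := 3 / 2) ?_ ?_ (by norm_num) (by norm_num))
    (by norm_num)
  · rw [abs_le]; constructor <;> linarith
  · rw [abs_le]; constructor <;> linarith

theorem ae_norm_lt : ∀ᵐ w ∂mu, ‖w‖ < 2 := by
  have h : ∀ᵐ w ∂mu, w ∈ range cod := by
    rw [ae_iff]
    exact mu_K
  filter_upwards [h] with w hw
  obtain ⟨ω, rfl⟩ := hw
  exact norm_cod_lt ω

theorem kern_bound (R : ℝ) (w : ℂ) (hw : ‖w‖ < 2) :
    ∫⁻ z in ball (0 : ℂ) R, ‖(z - w)⁻¹‖ₑ ≤ ∫⁻ z in ball (0 : ℂ) (R + 2), ‖(z)⁻¹‖ₑ := by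
  rw [← lintegral_indicator measurableSet_ball, ← lintegral_indicator measurableSet_ball,
    ← lintegral_add_right_eq_self _ w]
  refine lintegral_mono fun z => ?_
  by_cases hz : z + w ∈ ball (0 : ℂ) R
  · rw [indicator_of_mem hz, indicator_of_mem]
    · simp
    · rw [mem_ball_zero_iff] at hz ⊢
      have : ‖z‖ ≤ ‖z + w‖ + ‖w‖ := by
        calc ‖z‖ = ‖z + w - w‖ := by ring_nf
          _ ≤ _ := norm_sub_le _ _
      linarith
  · rw [indicator_of_notMem hz]
    exact bot_le

theorem kern_fin (R : ℝ) : ∫⁻ z in ball (0 : ℂ) R, ‖(z)⁻¹‖ₑ < (⊤ : ℝ≥0∞) := by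
  have h := (integrableOn_norm_inv R).2
  rw [hasFiniteIntegral_iff_enorm] at h
  refine lt_of_eq_of_lt ?_ h
  refine lintegral_congr fun z => ?_
  rw [← norm_inv, enorm_norm]

theorem kern_int (R : ℝ) : Integrable (fun p : ℂ × ℂ => (p.1 - p.2)⁻¹)
    ((volume.restrict (ball (0 : ℂ) R)).prod mu) := by
  refine ⟨(by fun_prop : Measurable fun p : ℂ × ℂ => (p.1 - p.2)⁻¹).aestronglyMeasurable, ?_⟩
  rw [hasFiniteIntegral_iff_enorm, lintegral_prod_symm _ (by fun_prop)]
  refine lt_of_le_of_lt (b := ∫⁻ _ : ℂ, (∫⁻ z in ball (0 : ℂ) (R + 2), ‖(z)⁻¹‖ₑ) ∂mu) ?_ ?_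
  · refine lintegral_mono_ae ?_
    filter_upwards [ae_norm_lt] with w hw
    exact kern_bound R w hw
  · rw [lintegral_const, measure_univ, mul_one]
    exact kern_fin _

/-- the Cauchy transform -/
noncomputable def F (z : ℂ) : ℂ := (Real.pi : ℂ)⁻¹ * ∫ w, (z - w)⁻¹ ∂mu

theorem F_int (R : ℝ) : IntegrableOn F (ball (0 : ℂ) R) :=
  (kern_int R).integral_prod_left.const_mul _

theorem F_eq {G : ℂ → ℂ} (hG : ContDiff ℝ 1 G) (hc : HasCompactSupport G) :
    Integrable (fun z => dbar G z * F z) ∧ ∫ z, dbar G z * F z = -∫ w, G w ∂mu := by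
  have hD : Continuous (dbar G) := Pool.Agent.H761R2.SV.continuous_dbar hG
  have hDs : HasCompactSupport (dbar G) := by
    have h1 : HasCompactSupport (fderiv ℝ G) := hc.fderiv ℝ
    apply HasCompactSupport.of_support_subset_isCompact h1.isCompact
    intro w hw
    by_contra hn
    apply hw
    simp [dbar, image_eq_zero_of_notMem_tsupport hn]
  obtain ⟨C, hC⟩ := hDs.exists_bound_of_continuous hD
  obtain ⟨R, hR⟩ := (hDs.isCompact.isBounded).subset_ball (0 : ℂ)
  have hout : ∀ z, z ∉ ball (0 : ℂ) R → dbar G z = 0 := fun z hz =>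
    image_eq_zero_of_notMem_tsupport fun h => hz (hR h)
  have hint : IntegrableOn (fun z => dbar G z * F z) (ball (0 : ℂ) R) := by
    refine (F_int R).bdd_mul (c := C) hD.aestronglyMeasurable (Eventually.of_forall hC)
  have hsupp : Function.support (fun z => dbar G z * F z) ⊆ ball (0 : ℂ) R := by
    intro z hz
    by_contra hn
    apply hz
    simp [hout z hn]
  refine ⟨(integrableOn_iff_integrable_of_support_subset hsupp).1 hint, ?_⟩
  rw [← setIntegral_eq_integral_of_forall_compl_eq_zero (s := ball (0 : ℂ) R)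
    (fun z hz => by rw [hout z hz, zero_mul])]
  have h1 : Integrable (fun p : ℂ × ℂ => dbar G p.1 * (p.1 - p.2)⁻¹)
      ((volume.restrict (ball (0 : ℂ) R)).prod mu) :=
    (kern_int R).bdd_mul (c := C) (hD.comp continuous_fst).aestronglyMeasurable
      (Eventually.of_forall fun p => hC _)
  have h2 : ∀ z, dbar G z * F z = (Real.pi : ℂ)⁻¹ * ∫ w, dbar G z * (z - w)⁻¹ ∂mu := by
    intro z
    rw [F, integral_const_mul]
    ring
  simp_rw [h2]
  rw [integral_const_mul]
  have h3 := integral_integral_swap (f := fun z w => dbar G z * (z - w)⁻¹)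
    (μ := volume.restrict (ball (0 : ℂ) R)) (ν := mu) h1
  rw [h3]
  have h4 : ∀ w, ∫ z in ball (0 : ℂ) R, dbar G z * (z - w)⁻¹ = -(Real.pi * G w) := by
    intro w
    rw [setIntegral_eq_integral_of_forall_compl_eq_zero
      (fun z hz => by rw [hout z hz, zero_mul]), ← pompeiu_compact hG hc w, ← integral_neg]
    refine integral_congr_ae (Eventually.of_forall fun z => ?_)
    simp only
    rw [← neg_sub w z, inv_neg]
    ring
  simp_rw [h4]
  rw [integral_neg, integral_const_mul]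
  have hpi : (Real.pi : ℂ) ≠ 0 := by exact_mod_cast Real.pi_ne_zero
  field_simp

end Pool.Agent.H76BD
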