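import Pool.Agent.H76BD.Plane

/-!
# Every point of the Cantor set is an approximate discontinuity point which is not a jump point
-/

set_option autoImplicit false
set_option linter.all false

open MeasureTheory Set Filter Topology Metric
open scoped ENNReal

namespace Pool.Agent.H76BD

theorem pd_zero_of_notMem {φ : E 2 → ℝ} {i : Fin 2} {x : E 2} (h : x ∉ tsupport φ) :
    pd φ i x = 0 := by
  rw [pd]
  have h1 : fderiv ℝ φ x = 0 := by
    by_contra hne
    exact h (support_fderiv_subset ℝ hne)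
  rw [h1]; rfl

theorem continuous_pd {φ : E 2 → ℝ} (hφ : ContDiff ℝ 1 φ) (i : Fin 2) : Continuous (pd φ i) :=
  (hφ.continuous_fderiv (by simp)).clm_apply continuous_const

theorem compact_pd {φ : E 2 → ℝ} (hc : HasCompactSupport φ) (i : Fin 2) :
    HasCompactSupport (pd φ i) := by
  refine HasCompactSupport.intro hc.isCompact fun x hx => pd_zero_of_notMem hx

theorem pd_integral_zero {φ : E 2 → ℝ} (hφ : ContDiff ℝ 1 φ) (hc : HasCompactSupport φ) (i : Fin 2) :
    ∫ x, pd φ i x = 0 := by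
  have hi : Integrable (pd φ i) := (continuous_pd hφ i).integrable_of_hasCompactSupport (compact_pd hc i)
  have hi2 : Integrable φ := hφ.continuous.integrable_of_hasCompactSupport hc
  have h := integral_mul_fderiv_eq_neg_fderiv_mul_of_integrable (μ := (volume : Measure (E 2)))
    (𝕜 := ℝ) (f := fun _ : E 2 => (1 : ℝ)) (g := φ) (v := EuclideanSpace.single i 1)
    (by simp) (by simp only [one_mul]; exact hi) (by simpa using hi2)
    (fun x _ => differentiableAt_const _)
    (fun x _ => (hφ.differentiable (by simp)) x)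
  simpa [pd] using h

theorem uu_loc : LocallyIntegrable uu := fun x =>
  ⟨ball 0 (‖x‖ + 1), isOpen_ball.mem_nhds (by simp), uu_int _⟩

theorem uu_loc' (i : Fin 2) : LocallyIntegrable (fun y => uu y i) := fun x =>
  ⟨ball 0 (‖x‖ + 1), isOpen_ball.mem_nhds (by simp),
    (EuclideanSpace.proj i : E 2 →L[ℝ] ℝ).integrable_comp (uu_int _)⟩

/-- the fixed cut off function -/
noncomputable def psi : ContDiffBump (0 : E 2) := ⟨1 / 5, 1 / 4, by norm_num, by norm_num⟩

/-- the rescaled cut off functions -/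
noncomputable def bmp (c : E 2) (s : ℝ) (y : E 2) : ℝ := psi (s⁻¹ • (y - c))

theorem bmp_contDiff (c : E 2) (s : ℝ) : ContDiff ℝ 1 (bmp c s) := by
  have h : ContDiff ℝ 1 (psi : E 2 → ℝ) := psi.contDiff (n := 1)
  have h2 : ContDiff ℝ 1 fun y : E 2 => s⁻¹ • (y - c) := by fun_prop
  exact h.comp h2

theorem bmp_nonneg (c : E 2) (s : ℝ) (y : E 2) : 0 ≤ bmp c s y := psi.nonneg

theorem bmp_one {c : E 2} {s : ℝ} (hs : 0 < s) {y : E 2} (hy : y ∈ closedBall c (1 / 5 * s)) :
    bmp c s y = 1 := by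
  refine psi.one_of_mem_closedBall ?_
  rw [mem_closedBall, dist_eq_norm] at hy
  show s⁻¹ • (y - c) ∈ closedBall (0 : E 2) (1 / 5)
  rw [mem_closedBall, dist_zero_right, norm_smul, norm_inv, Real.norm_of_nonneg hs.le,
    inv_mul_le_iff₀ hs]
  linarith

theorem bmp_zero {c : E 2} {s : ℝ} (hs : 0 < s) {y : E 2} (hy : y ∉ closedBall c (1 / 4 * s)) :
    bmp c s y = 0 := by
  refine psi.zero_of_le_dist ?_
  rw [mem_closedBall, dist_eq_norm, not_le] at hy
  show (1 / 4 : ℝ) ≤ dist (s⁻¹ • (y - c)) 0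
  rw [dist_zero_right, norm_smul, norm_inv, Real.norm_of_nonneg hs.le, le_inv_mul_iff₀ hs]
  linarith

theorem bmp_tsupport {c : E 2} {s : ℝ} (hs : 0 < s) : tsupport (bmp c s) ⊆ closedBall c (1 / 4 * s) := by
  refine closure_minimal (fun y hy => ?_) isClosed_closedBall
  by_contra hc
  exact hy (bmp_zero hs hc)

theorem bmp_compact {c : E 2} {s : ℝ} (hs : 0 < s) : HasCompactSupport (bmp c s) :=
  HasCompactSupport.intro (isCompact_closedBall c (1 / 4 * s)) fun y hy => bmp_zero hs hy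

theorem exists_C : ∃ C : ℝ, 0 < C ∧ ∀ (c : E 2) (s : ℝ), 0 < s → ∀ (i : Fin 2) (y : E 2),
    |pd (bmp c s) i y| ≤ C / s := by
  have hpc : ContDiff ℝ 1 (psi : E 2 → ℝ) := psi.contDiff (n := 1)
  obtain ⟨C0, hC0⟩ := (continuous_pd hpc 0).bounded_above_of_compact_support
    (compact_pd psi.hasCompactSupport 0)
  obtain ⟨C1, hC1⟩ := (continuous_pd hpc 1).bounded_above_of_compact_support
    (compact_pd psi.hasCompactSupport 1)
  have hC : ∀ (i : Fin 2) (y : E 2), |pd (psi : E 2 → ℝ) i y| ≤ |C0| + |C1| + 1 := by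
    intro i y
    have h0 := hC0 y
    have h1 := hC1 y
    rw [Real.norm_eq_abs] at h0 h1
    have a0 := le_abs_self C0
    have a1 := le_abs_self C1
    have b0 := abs_nonneg C0
    have b1 := abs_nonneg C1
    fin_cases i
    · show |pd (psi : E 2 → ℝ) 0 y| ≤ _
      linarith
    · show |pd (psi : E 2 → ℝ) 1 y| ≤ _
      linarith
  refine ⟨|C0| + |C1| + 1, by positivity, fun c s hs i y => ?_⟩
  have hd : HasFDerivAt (fun y : E 2 => s⁻¹ • (y - c)) (s⁻¹ • ContinuousLinearMap.id ℝ (E 2)) y :=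
    ((hasFDerivAt_id y).sub_const c).const_smul s⁻¹
  have hp : HasFDerivAt (psi : E 2 → ℝ) (fderiv ℝ psi (s⁻¹ • (y - c))) (s⁻¹ • (y - c)) :=
    (hpc.differentiable (by simp) _).hasFDerivAt
  have h := hp.comp y hd
  have e : pd (bmp c s) i y = s⁻¹ * pd (psi : E 2 → ℝ) i (s⁻¹ • (y - c)) := by
    rw [pd]
    have h' : fderiv ℝ (bmp c s) y = (fderiv ℝ psi (s⁻¹ • (y - c))).comp (s⁻¹ • ContinuousLinearMap.id ℝ (E 2)) :=
      h.fderiv
    rw [h']
    simp [pd]
  rw [e, abs_mul, abs_of_pos (inv_pos.2 hs), div_eq_inv_mul]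
  exact mul_le_mul_of_nonneg_left (hC i _) (inv_pos.2 hs).le

theorem blow : ∃ C : ℝ, 0 < C ∧ ∀ (c : E 2) (s : ℝ), 0 < s → ∀ a : E 2,
    nu.real (closedBall c (1 / 5 * s)) ≤ C / s * ∫ y in closedBall c (1 / 4 * s), ‖uu y - a‖ := by
  obtain ⟨C, hC0, hC⟩ := exists_C
  refine ⟨C, hC0, fun c s hs a => ?_⟩
  set φ := bmp c s with hφdef
  have hφ : ContDiff ℝ 1 φ := bmp_contDiff c s
  have hcs : HasCompactSupport φ := bmp_compact hs
  have hφi : Integrable φ nu := hφ.continuous.integrable_of_hasCompactSupport hcs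
  have h1 : nu.real (closedBall c (1 / 5 * s)) ≤ ∫ y, φ y ∂nu := by
    have e : nu.real (closedBall c (1 / 5 * s)) =
        ∫ y, (closedBall c (1 / 5 * s)).indicator (fun _ => (1 : ℝ)) y ∂nu := by
      rw [integral_indicator measurableSet_closedBall]
      simp
    rw [e]
    refine integral_mono ((integrable_const _).indicator measurableSet_closedBall) hφi fun y => ?_
    by_cases hy : y ∈ closedBall c (1 / 5 * s)
    · rw [indicator_of_mem hy]
      exact (bmp_one hs hy).ge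
    · rw [indicator_of_notMem hy]
      exact bmp_nonneg c s y
  have hint : ∀ i : Fin 2, Integrable (fun y => uu y i * pd φ i y) := by
    intro i
    have h := (uu_loc' i).integrable_smul_left_of_hasCompactSupport (continuous_pd hφ i) (compact_pd hcs i)
    refine h.congr (Eventually.of_forall fun y => ?_)
    simp [mul_comm]
  have hpi : ∀ i : Fin 2, Integrable (pd φ i) := fun i =>
    (continuous_pd hφ i).integrable_of_hasCompactSupport (compact_pd hcs i)
  have heq := (uu_eq hφ hcs).1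
  have h2 : ∫ y, ((uu y 0 - a 0) * pd φ 0 y - (uu y 1 - a 1) * pd φ 1 y) / 2 = -∫ x, φ x ∂nu := by
    have e : (fun y => ((uu y 0 - a 0) * pd φ 0 y - (uu y 1 - a 1) * pd φ 1 y) / 2) =
        fun y => (uu y 0 * pd φ 0 y - uu y 1 * pd φ 1 y) / 2 -
          (a 0 / 2 * pd φ 0 y - a 1 / 2 * pd φ 1 y) := by
      funext y; ring
    have i1 : Integrable (fun y => (uu y 0 * pd φ 0 y - uu y 1 * pd φ 1 y) / 2) :=
      ((hint 0).sub (hint 1)).div_const 2
    have i2 : Integrable (fun y => a 0 / 2 * pd φ 0 y) := (hpi 0).const_mul _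
    have i3 : Integrable (fun y => a 1 / 2 * pd φ 1 y) := (hpi 1).const_mul _
    have i4 : Integrable (fun y => a 0 / 2 * pd φ 0 y - a 1 / 2 * pd φ 1 y) := i2.sub i3
    rw [e, integral_sub i1 i4, heq, integral_sub i2 i3, integral_const_mul,
      integral_const_mul, pd_integral_zero hφ hcs 0, pd_integral_zero hφ hcs 1]
    ring
  have hnorm : ∀ y i, |uu y i - a i| ≤ ‖uu y - a‖ := by
    intro y i
    have := EuclideanSpace.norm_eq (uu y - a)
    have h3 := PiLp.norm_apply_le (uu y - a) i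
    simpa using h3
  have hua : IntegrableOn (fun y => ‖uu y - a‖) (closedBall c (1 / 4 * s)) := by
    have h4 : IntegrableOn uu (closedBall c (1 / 4 * s)) :=
      uu_loc.integrableOn_isCompact (isCompact_closedBall _ _)
    have h5 : IntegrableOn (fun _ : E 2 => a) (closedBall c (1 / 4 * s)) :=
      integrableOn_const (by exact (measure_closedBall_lt_top).ne)
    exact (h4.sub h5).norm
  have h3 : ‖∫ y, ((uu y 0 - a 0) * pd φ 0 y - (uu y 1 - a 1) * pd φ 1 y) / 2‖ ≤
      ∫ y, (closedBall c (1 / 4 * s)).indicator (fun y => C / s * ‖uu y - a‖) y := by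
    have hua2 : IntegrableOn (fun y => C / s * ‖uu y - a‖) (closedBall c (1 / 4 * s)) :=
      Integrable.const_mul hua _
    refine norm_integral_le_of_norm_le (hua2.integrable_indicator measurableSet_closedBall)
      (Eventually.of_forall fun y => ?_)
    by_cases hy : y ∈ closedBall c (1 / 4 * s)
    · rw [indicator_of_mem hy, Real.norm_eq_abs]
      have a0 := hC c s hs 0 y
      have a1 := hC c s hs 1 y
      have b0 := hnorm y 0
      have b1 := hnorm y 1
      have hcs0 : 0 < C / s := by positivity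
      calc |((uu y 0 - a 0) * pd φ 0 y - (uu y 1 - a 1) * pd φ 1 y) / 2|
          ≤ (|uu y 0 - a 0| * |pd φ 0 y| + |uu y 1 - a 1| * |pd φ 1 y|) / 2 := by
            rw [abs_div, abs_of_pos (by norm_num : (0 : ℝ) < 2)]
            gcongr
            rw [← abs_mul, ← abs_mul]
            exact abs_sub _ _
        _ ≤ (‖uu y - a‖ * (C / s) + ‖uu y - a‖ * (C / s)) / 2 := by gcongr
        _ = C / s * ‖uu y - a‖ := by ring
    · have hy' : y ∉ tsupport φ := fun h => hy (bmp_tsupport hs h)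
      rw [indicator_of_notMem hy, pd_zero_of_notMem hy', pd_zero_of_notMem hy']
      simp
  rw [integral_indicator measurableSet_closedBall, integral_const_mul, h2, norm_neg] at h3
  exact h1.trans ((le_abs_self _).trans h3)

theorem nu_ball (c : ℂ) (r : ℝ) : nu (closedBall (ee c) r) = mu (closedBall c r) := by
  rw [nu, Measure.map_apply meas_ee measurableSet_closedBall]
  congr 1
  ext z
  simp [ee.dist_map]

theorem avg_lower : ∃ κ : ℝ, 0 < κ ∧ ∀ (ω : ℕ → Fin 4) (k : ℕ) (j : Fin 4) (a : E 2) (A : Set (E 2)),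
    closedBall (ee (cen ω k j)) (1 / 4 * (1 / 4) ^ k) ⊆ A → A ⊆ ball (ee (cod ω)) (2 * (1 / 4) ^ k) →
    κ ≤ ⨍ y in A, ‖uu y - a‖ := by
  obtain ⟨C, hC0, hC⟩ := blow
  set V : ℝ := (volume : Measure (E 2)).real (ball 0 1) with hV
  have hVpos : 0 < V := by
    rw [hV, Measure.real, ENNReal.toReal_pos_iff]
    exact ⟨measure_ball_pos _ _ one_pos, measure_ball_lt_top⟩
  refine ⟨1 / (16 * C * V), by positivity, fun ω k j a A hA1 hA2 => ?_⟩
  set s : ℝ := (1 / 4) ^ k with hs
  have hspos : 0 < s := by positivity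
  have h1 := hC (ee (cen ω k j)) s hspos a
  have h2 : s / 4 ≤ nu.real (closedBall (ee (cen ω k j)) (1 / 5 * s)) := by
    rw [Measure.real, nu_ball]
    have h3 := mu_cen ω k j
    have h4 : ((4⁻¹ : ℝ≥0∞) ^ (k + 1)).toReal = s / 4 := by
      rw [ENNReal.toReal_pow, ENNReal.toReal_inv, hs, pow_succ]
      norm_num
      ring
    rw [← h4]
    exact ENNReal.toReal_mono (measure_ne_top _ _) h3
  have hAtop : volume A ≠ (⊤ : ℝ≥0∞) := (lt_of_le_of_lt (measure_mono hA2) measure_ball_lt_top).ne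
  have hAV : (volume : Measure (E 2)).real A ≤ 4 * s ^ 2 * V := by
    have h5 : (volume : Measure (E 2)).real A ≤ (volume : Measure (E 2)).real (ball (ee (cod ω)) (2 * s)) :=
      ENNReal.toReal_mono measure_ball_lt_top.ne (measure_mono hA2)
    refine h5.trans (le_of_eq ?_)
    have hfr : Module.finrank ℝ (E 2) = 2 := by simp
    rw [Measure.real, Measure.addHaar_ball _ _ (by positivity), ENNReal.toReal_mul,
      ENNReal.toReal_ofReal (by positivity), hfr, hV, Measure.real]
    ring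
  have hintA : IntegrableOn (fun y => ‖uu y - a‖) A := by
    have h4 : IntegrableOn uu (closedBall (ee (cod ω)) (2 * s)) :=
      uu_loc.integrableOn_isCompact (isCompact_closedBall _ _)
    have h5 : IntegrableOn (fun _ : E 2 => a) (closedBall (ee (cod ω)) (2 * s)) :=
      integrableOn_const (by exact (measure_closedBall_lt_top).ne)
    have h6 : IntegrableOn (fun y => ‖uu y - a‖) (closedBall (ee (cod ω)) (2 * s)) := (h4.sub h5).norm
    exact h6.mono_set (hA2.trans ball_subset_closedBall)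
  have h6 : ∫ y in closedBall (ee (cen ω k j)) (1 / 4 * s), ‖uu y - a‖ ≤ ∫ y in A, ‖uu y - a‖ :=
    setIntegral_mono_set hintA (Eventually.of_forall fun y => norm_nonneg _) (HasSubset.Subset.eventuallyLE hA1)
  have h7 : ∫ y in A, ‖uu y - a‖ = (volume : Measure (E 2)).real A * ⨍ y in A, ‖uu y - a‖ := by
    rw [← measure_smul_setAverage _ hAtop, smul_eq_mul]
  have h8 : 0 ≤ ⨍ y in A, ‖uu y - a‖ := by
    rw [setAverage_eq, smul_eq_mul]
    exact mul_nonneg (inv_nonneg.2 measureReal_nonneg) (integral_nonneg fun y => norm_nonneg _)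
  have h9 : s / 4 ≤ C / s * (4 * s ^ 2 * V * ⨍ y in A, ‖uu y - a‖) := by
    refine h2.trans (h1.trans ?_)
    have hc : 0 ≤ C / s := by positivity
    refine mul_le_mul_of_nonneg_left (h6.trans ?_) hc
    rw [h7]
    exact mul_le_mul_of_nonneg_right hAV h8
  have h10 : C / s * (4 * s ^ 2 * V * ⨍ y in A, ‖uu y - a‖) = s * (4 * C * V * ⨍ y in A, ‖uu y - a‖) := by
    field_simp
  rw [h10] at h9
  rw [div_le_iff₀ (by positivity)]
  have h11 : 1 / 4 ≤ 4 * C * V * ⨍ y in A, ‖uu y - a‖ := by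
    have : s * (1 / 4) ≤ s * (4 * C * V * ⨍ y in A, ‖uu y - a‖) := by linarith
    exact le_of_mul_le_mul_left this hspos
  linarith

theorem tendsto_rad : Tendsto (fun k : ℕ => 2 * (1 / 4 : ℝ) ^ k) atTop (𝓝[>] 0) := by
  refine tendsto_nhdsWithin_iff.2 ⟨?_, Eventually.of_forall fun k => ?_⟩
  · have h := (tendsto_pow_atTop_nhds_zero_of_lt_one (r := (1 / 4 : ℝ)) (by norm_num) (by norm_num)).const_mul 2
    simpa using h
  · show (0 : ℝ) < _
    positivity

theorem ball_sub (ω : ℕ → Fin 4) (k : ℕ) (j : Fin 4) :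
    closedBall (ee (cen ω k j)) (1 / 4 * (1 / 4) ^ k) ⊆ ball (ee (cod ω)) (2 * (1 / 4) ^ k) := by
  intro y hy
  rw [mem_closedBall] at hy
  rw [mem_ball]
  have h1 : dist (ee (cen ω k j)) (ee (cod ω)) ≤ 3 / 2 * (1 / 4) ^ k := by
    rw [ee.dist_map, dist_eq_norm]
    exact dist_cen ω k j
  have hp : (0 : ℝ) < (1 / 4) ^ k := by positivity
  have := dist_triangle y (ee (cen ω k j)) (ee (cod ω))
  linarith

theorem cod_mem (ω : ℕ → Fin 4) : ee (cod ω) ∈ ball (0 : E 2) 2 := by
  rw [mem_ball_zero_iff, ee.norm_map]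
  exact norm_cod_lt ω

theorem mem_approxDisc (ω : ℕ → Fin 4) : ee (cod ω) ∈ approxDisc (ball 0 2) uu := by
  obtain ⟨κ, hκ, h⟩ := avg_lower
  refine ⟨cod_mem ω, ?_⟩
  rintro ⟨z, hz⟩
  have h1 := hz.comp tendsto_rad
  have h2 := ge_of_tendsto' h1 (fun k => h ω k 0 z _ (ball_sub ω k 0) Subset.rfl)
  linarith

theorem inner_ee (z : ℂ) (v : E 2) : inner ℝ (ee z) v = z.re * v 0 + z.im * v 1 := by
  rw [PiLp.inner_apply, Fin.sum_univ_two, ee0, ee1]
  simp
  ring

theorem half_sub (ω : ℕ → Fin 4) (k : ℕ) (j : Fin 4) {v : E 2} (hv : ‖v‖ = 1)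
    (h : 3 / 8 * (1 / 4) ^ k ≤ inner ℝ (ee (cen ω k j) - ee (cod ω)) v) :
    closedBall (ee (cen ω k j)) (1 / 4 * (1 / 4) ^ k) ⊆ halfBall (ee (cod ω)) v (2 * (1 / 4) ^ k) := by
  intro y hy
  refine ⟨ball_sub ω k j hy, ?_⟩
  have hp : (0 : ℝ) < (1 / 4) ^ k := by positivity
  rw [mem_closedBall, dist_eq_norm] at hy
  have e : y - ee (cod ω) = (y - ee (cen ω k j)) + (ee (cen ω k j) - ee (cod ω)) := by abel
  rw [e, inner_add_left]
  have h1 := abs_real_inner_le_norm (y - ee (cen ω k j)) v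
  rw [hv, mul_one] at h1
  have h2 := neg_abs_le (inner ℝ (y - ee (cen ω k j)) v)
  linarith

theorem notMem_jumpSet (ω : ℕ → Fin 4) : ee (cod ω) ∉ jumpSet (ball 0 2) uu := by
  obtain ⟨κ, hκ, h⟩ := avg_lower
  rintro ⟨-, a, b, v, -, hv, ha, hb⟩
  have h1 := (ha.comp tendsto_rad).add (hb.comp tendsto_rad)
  have nn : ∀ (A : Set (E 2)) (a : E 2), 0 ≤ ⨍ y in A, ‖uu y - a‖ := by
    intro A a
    rw [setAverage_eq, smul_eq_mul]
    exact mul_nonneg (inv_nonneg.2 measureReal_nonneg) (integral_nonneg fun y => norm_nonneg _)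
  have hv2 : v 0 ^ 2 + v 1 ^ 2 = 1 := by
    have h3 := EuclideanSpace.norm_sq_eq v
    rw [hv, Fin.sum_univ_two, Real.norm_eq_abs, Real.norm_eq_abs, sq_abs, sq_abs] at h3
    linarith
  have h2 := ge_of_tendsto' (b := κ) h1 (fun k => ?_)
  · linarith
  · obtain ⟨j, hj⟩ := exists_far ω k (cod ω) (v 0) (v 1) hv2
    have e : (cen ω k j - cod ω).re * v 0 + (cen ω k j - cod ω).im * v 1 =
        inner ℝ (ee (cen ω k j) - ee (cod ω)) v := by
      rw [← map_sub, inner_ee]
    rw [e] at hj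
    show κ ≤ (⨍ y in halfBall (ee (cod ω)) v (2 * (1 / 4) ^ k), ‖uu y - a‖) +
      ⨍ y in halfBall (ee (cod ω)) (-v) (2 * (1 / 4) ^ k), ‖uu y - b‖
    rcases le_abs'.1 hj with hneg | hpos
    · have h3 := h ω k j b _ (half_sub ω k j (v := -v) (by rw [norm_neg, hv]) (by
        rw [inner_neg_right]; linarith)) (fun y hy => hy.1)
      have := nn (halfBall (ee (cod ω)) v (2 * (1 / 4) ^ k)) a
      linarith
    · have h3 := h ω k j a _ (half_sub ω k j hv hpos) (fun y hy => hy.1)
      have := nn (halfBall (ee (cod ω)) (-v) (2 * (1 / 4) ^ k)) b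
      linarith

end Pool.Agent.H76BD
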