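import Pool.Agent.H76BD.Kern
import Pool.Agent.H76BD.Defs

/-!
# The displacement field in the plane
-/

set_option autoImplicit false
set_option linter.all false

open MeasureTheory Set Filter Topology Metric
open scoped ENNReal
open Pool.Agent.H761R2.SV (dbar)

namespace Pool.Agent.H76BD

/-- the identification of the plane -/
noncomputable def ee : ℂ ≃ₗᵢ[ℝ] E 2 := Complex.orthonormalBasisOneI.repr

theorem ee0 (z : ℂ) : ee z 0 = z.re := by
  show (Complex.orthonormalBasisOneI.repr z) 0 = z.re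
  rw [Complex.orthonormalBasisOneI_repr_apply]
  rfl

theorem ee1 (z : ℂ) : ee z 1 = z.im := by
  show (Complex.orthonormalBasisOneI.repr z) 1 = z.im
  rw [Complex.orthonormalBasisOneI_repr_apply]
  rfl

theorem ee_one : ee 1 = EuclideanSpace.single 0 1 := by
  ext i
  fin_cases i
  · exact (ee0 1).trans (by simp)
  · exact (ee1 1).trans (by simp)

theorem ee_I : ee Complex.I = EuclideanSpace.single 1 1 := by
  ext i
  fin_cases i
  · exact (ee0 Complex.I).trans (by simp)
  · exact (ee1 Complex.I).trans (by simp)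

theorem mp_ee : MeasurePreserving ee volume volume := ee.measurePreserving

/-- the displacement -/
noncomputable def uu (x : E 2) : E 2 := ee (F (ee.symm x))

theorem uu0 (z : ℂ) : uu (ee z) 0 = (F z).re := by
  rw [uu, ee.symm_apply_apply, ee0]

theorem uu1 (z : ℂ) : uu (ee z) 1 = (F z).im := by
  rw [uu, ee.symm_apply_apply, ee1]

/-- the Cantor measure in the plane -/
noncomputable def nu : Measure (E 2) := mu.map ee

theorem meas_ee : Measurable (ee : ℂ → E 2) := ee.continuous.measurable

instance : IsProbabilityMeasure nu := Measure.isProbabilityMeasure_map meas_ee.aemeasurable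

theorem uu_int (R : ℝ) : IntegrableOn uu (ball (0 : E 2) R) := by
  have h1 : IntegrableOn (fun z => ee (F z)) (ball (0 : ℂ) R) :=
    (ee.toContinuousLinearEquiv : ℂ →L[ℝ] E 2).integrable_comp (F_int R)
  have hme : MeasurableEmbedding (ee : ℂ → E 2) := ee.toHomeomorph.measurableEmbedding
  rw [← mp_ee.integrableOn_comp_preimage hme]
  have hpre : ee ⁻¹' ball (0 : E 2) R = ball (0 : ℂ) R := by
    ext z
    simp
  rw [hpre]
  refine h1.congr (Eventually.of_forall fun z => ?_)
  simp [uu]

/-- the equation of the displacement -/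
theorem uu_eq {φ : E 2 → ℝ} (hφ : ContDiff ℝ 1 φ) (hc : HasCompactSupport φ) :
    (∫ x, (uu x 0 * pd φ 0 x - uu x 1 * pd φ 1 x) / 2 = -∫ x, φ x ∂nu) ∧
      ∫ x, (uu x 1 * pd φ 0 x + uu x 0 * pd φ 1 x) / 2 = 0 := by
  set G : ℂ → ℂ := fun z => ((φ (ee z) : ℝ) : ℂ) with hG
  have hGd : ContDiff ℝ 1 G := Complex.ofRealCLM.contDiff.comp (hφ.comp ee.contDiff)
  have hGs : HasCompactSupport G := by
    have h1 : HasCompactSupport (fun z => φ (ee z)) := hc.comp_homeomorph ee.toHomeomorph
    exact h1.comp_left (g := fun x : ℝ => (x : ℂ)) (by simp)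
  have hder : ∀ z v, fderiv ℝ G z v = ((fderiv ℝ φ (ee z) (ee v) : ℝ) : ℂ) := by
    intro z v
    have h1 : HasFDerivAt φ (fderiv ℝ φ (ee z)) (ee z) :=
      (hφ.differentiable (by simp) _).hasFDerivAt
    have h2 : HasFDerivAt (fun z => φ (ee z)) ((fderiv ℝ φ (ee z)).comp
        (ee.toContinuousLinearEquiv : ℂ →L[ℝ] E 2)) z :=
      h1.comp z (ee.toContinuousLinearEquiv : ℂ →L[ℝ] E 2).hasFDerivAt
    have h3 : HasFDerivAt G (Complex.ofRealCLM.comp ((fderiv ℝ φ (ee z)).comp
        (ee.toContinuousLinearEquiv : ℂ →L[ℝ] E 2))) z :=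
      Complex.ofRealCLM.hasFDerivAt.comp z h2
    rw [h3.fderiv]
    rfl
  have hdb : ∀ z, dbar G z = ((pd φ 0 (ee z) : ℝ) + Complex.I * (pd φ 1 (ee z) : ℝ)) / 2 := by
    intro z
    rw [dbar, hder, hder, ee_one, ee_I]
    rfl
  obtain ⟨hi, heq⟩ := F_eq hGd hGs
  have hre : ∀ z, (dbar G z * F z).re = ((F z).re * pd φ 0 (ee z) - (F z).im * pd φ 1 (ee z)) / 2 := by
    intro z
    rw [hdb]
    simp [Complex.mul_re, Complex.div_re, Complex.div_im]
    ring
  have him : ∀ z, (dbar G z * F z).im = ((F z).im * pd φ 0 (ee z) + (F z).re * pd φ 1 (ee z)) / 2 := by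
    intro z
    rw [hdb]
    simp [Complex.mul_im, Complex.div_re, Complex.div_im]
    ring
  have hGi : ∫ w, G w ∂mu = ((∫ x, φ x ∂nu : ℝ) : ℂ) := by
    rw [nu, integral_map meas_ee.aemeasurable hφ.continuous.aestronglyMeasurable, ← integral_complex_ofReal]
  rw [hGi] at heq
  have hme : MeasurableEmbedding (ee : ℂ → E 2) := ee.toHomeomorph.measurableEmbedding
  constructor
  · have h1 := congrArg Complex.re heq
    have h2 : (∫ z, dbar G z * F z).re = ∫ z, (dbar G z * F z).re :=
      (integral_re hi).symm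
    rw [h2] at h1
    rw [← mp_ee.integral_comp hme]
    simp_rw [hre] at h1
    simp only [uu0, uu1]
    rw [h1]
    simp
  · have h1 := congrArg Complex.im heq
    have h2 : (∫ z, dbar G z * F z).im = ∫ z, (dbar G z * F z).im :=
      (integral_im hi).symm
    rw [h2] at h1
    rw [← mp_ee.integral_comp hme]
    simp_rw [him] at h1
    simp only [uu0, uu1]
    rw [h1]
    simp

end Pool.Agent.H76BD
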